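import Mathlib

/-!
# Short excursions outside a compact connected set: a counterexample for every `n ≥ 3`

For every `n ≥ 3` we build a compact connected set `K ⊂ ℝⁿ`, points `p, q ∈ K` and `ε > 0` (in fact
`ε = 1/4`) such that every curve `γ` from `p` to `q` has `length(γ \ K) ≥ ε`.

Construction (in `ℝ³`, coordinates `(x, t, z)`; for `n > 3` put zeros in the other coordinates).
Let `T0 (x,t,z) = (x, t/3, z/3)`, `T1 (x,t,z) = (1-x, (t+1)/3, (z+2)/3)`,
`T2 (x,t,z) = (x, (t+2)/3, z/3)`, and let `G1`, `G2` be the vertical segments over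
`(x,t) = (1,1/3)` and `(x,t) = (0,2/3)` with `0 ≤ z ≤ 2/3`.  Start with the unit cube and iterate
`X ↦ T0 X ∪ G1 ∪ T1 X ∪ G2 ∪ T2 X`; the continuum is the intersection of the iterates.
At level `j`, with `N = 3^j`, it lies in `N` thin tubes `[0,1] × [k/N,(k+1)/N] × [ζ k, ζ k + 1/N]`,
consecutive tubes being at vertical distance at least `1/N` and joined only over `t = k/N` at
`x = 1` (`k` odd) or `x = 0` (`k` even).

Lower bound.  A curve from `p` to `q` crosses each slab `|t - k/N| ≤ 1/(2N)`, `0 < k < N`.  In each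
slab it either spends length at least `1/(2N)` outside `K` or it visits the side `x = 1` (`k` odd),
`x = 0` (`k` even).  By uniform continuity only boundedly many pairs of consecutive slabs can be of
the second kind, so about `N/2` slabs cost `1/(2N)` each, for every `N = 3^j`.
-/

open scoped ENNReal unitInterval
open Set Topology

namespace Pool.Agent.Results.MP_5069ae_gt.ExcursionCounterexample

/-- `length(γ \ K)`.  For a curve `γ : [0,1] → E` from `p` to `q` and a set `K`, let
`U = γ⁻¹(E \ K)`.  This is the sum, over all connected components `J` of `U`, of the length of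
`γ|_J`, where the length is the supremum of the inscribed polygonal sums
(`eVariationOn γ J`, a value in `[0,∞]`). -/
noncomputable def lengthOutside {E : Type*} [PseudoEMetricSpace E] (K : Set E)
    {p q : E} (γ : Path p q) : ℝ≥0∞ :=
  ∑' J : {J : Set I // ∃ t ∈ γ ⁻¹' Kᶜ, J = connectedComponentIn (γ ⁻¹' Kᶜ) t},
    eVariationOn γ J

/-- Superadditivity of the variation over finitely many ordered sets. -/
theorem sum_eVariationOn_le_union {α E : Type*} [LinearOrder α] [PseudoEMetricSpace E]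
    (f : α → E) (s : Finset ℕ) (A : ℕ → Set α)
    (hA : ∀ i ∈ s, ∀ j ∈ s, i < j → ∀ x ∈ A i, ∀ y ∈ A j, x ≤ y) :
    ∑ i ∈ s, eVariationOn f (A i) ≤ eVariationOn f (⋃ i ∈ s, A i) := by
  induction s using Finset.induction_on_max with
  | empty => simp
  | insert a s ha ih =>
    have has : a ∉ s := fun h => lt_irrefl _ (ha a h)
    rw [Finset.sum_insert has, add_comm]
    have h1 := ih (fun i hi j hj => hA i (Finset.mem_insert_of_mem hi) j
      (Finset.mem_insert_of_mem hj))
    calc ∑ i ∈ s, eVariationOn f (A i) + eVariationOn f (A a)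
        ≤ eVariationOn f (⋃ i ∈ s, A i) + eVariationOn f (A a) := by gcongr
      _ ≤ eVariationOn f ((⋃ i ∈ s, A i) ∪ A a) := by
          apply eVariationOn.add_le_union
          intro x hx y hy
          simp only [mem_iUnion] at hx
          obtain ⟨i, hi, hxi⟩ := hx
          exact hA i (Finset.mem_insert_of_mem hi) a (Finset.mem_insert_self a s) (ha i hi) x hxi y hy
      _ ≤ _ := by
          apply eVariationOn.mono
          intro x hx
          rcases hx with hx | hx
          · simp only [mem_iUnion] at hx ⊢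
            obtain ⟨i, hi, hxi⟩ := hx
            exact ⟨i, Finset.mem_insert_of_mem hi, hxi⟩
          · simp only [mem_iUnion]
            exact ⟨a, Finset.mem_insert_self a s, hx⟩

/-- The variation on an open interval bounds the distance of the images of its endpoints. -/
theorem edist_le_eVariationOn_Ioo {E : Type*} [PseudoEMetricSpace E] {f : I → E}
    (hf : Continuous f) {a b : I} (hab : a < b) :
    edist (f a) (f b) ≤ eVariationOn f (Ioo a b) := by
  have h1 : Filter.Tendsto f (𝓝[>] a) (𝓝 (f a)) := (hf.tendsto a).mono_left nhdsWithin_le_nhds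
  have h2 : Filter.Tendsto f (𝓝[<] b) (𝓝 (f b)) := (hf.tendsto b).mono_left nhdsWithin_le_nhds
  have h3 : Filter.Tendsto (fun x : I × I => edist (f x.1) (f x.2)) (𝓝[>] a ×ˢ 𝓝[<] b)
      (𝓝 (edist (f a) (f b))) := by
    exact Filter.Tendsto.edist (h1.comp Filter.tendsto_fst) (h2.comp Filter.tendsto_snd)
  have : (𝓝[>] a).NeBot := nhdsGT_neBot_of_exists_gt ⟨b, hab⟩
  have : (𝓝[<] b).NeBot := nhdsLT_neBot_of_exists_lt ⟨a, hab⟩
  refine le_of_tendsto h3 ?_
  have e1 : ∀ᶠ x in 𝓝[>] a, x ∈ Ioo a b := Ioo_mem_nhdsGT hab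
  have e2 : ∀ᶠ x in 𝓝[<] b, x ∈ Ioo a b := Ioo_mem_nhdsLT hab
  filter_upwards [e1.prod_mk e2] with x hx
  exact eVariationOn.edist_le f hx.1 hx.2

/-- Finitely many non-overlapping time intervals spent outside `K` contribute to
`length(γ \ K)` at least the sum of the displacements along them. -/
theorem sum_le_lengthOutside {E : Type*} [PseudoEMetricSpace E] {K : Set E}
    {p q : E} (γ : Path p q) (s : Finset ℕ) (c d : ℕ → I)
    (hcd : ∀ i ∈ s, c i < d i) (hord : ∀ i ∈ s, ∀ j ∈ s, i < j → d i ≤ c j)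
    (hU : ∀ i ∈ s, Ioo (c i) (d i) ⊆ γ ⁻¹' Kᶜ) :
    ∑ i ∈ s, edist (γ (c i)) (γ (d i)) ≤ lengthOutside K γ := by
  classical
  set U : Set I := γ ⁻¹' Kᶜ with hUdef
  have hne : ∀ i ∈ s, (Ioo (c i) (d i)).Nonempty := fun i hi => nonempty_Ioo.2 (hcd i hi)
  -- component containing the interval
  let comp : ℕ → Set I := fun i =>
    if h : (Ioo (c i) (d i)).Nonempty then connectedComponentIn U h.some else ∅
  have hcomp : ∀ i ∈ s, Ioo (c i) (d i) ⊆ comp i ∧
      ∃ t ∈ U, comp i = connectedComponentIn U t := by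
    intro i hi
    have h := hne i hi
    simp only [comp, h, dif_pos]
    refine ⟨?_, h.some, hU i hi h.some_mem, rfl⟩
    exact isPreconnected_Ioo.subset_connectedComponentIn h.some_mem (hU i hi)
  have key : ∀ J ∈ s.image comp,
      ∑ i ∈ s with comp i = J, edist (γ (c i)) (γ (d i)) ≤ eVariationOn γ J := by
    intro J hJ
    calc ∑ i ∈ s with comp i = J, edist (γ (c i)) (γ (d i))
        ≤ ∑ i ∈ s with comp i = J, eVariationOn γ (Ioo (c i) (d i)) := by
          apply Finset.sum_le_sum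
          intro i hi
          exact edist_le_eVariationOn_Ioo γ.continuous (hcd i (Finset.mem_filter.1 hi).1)
      _ ≤ eVariationOn γ (⋃ i ∈ s.filter (fun i => comp i = J), Ioo (c i) (d i)) := by
          apply sum_eVariationOn_le_union
          intro i hi j hj hij x hx y hy
          have := hord i (Finset.mem_filter.1 hi).1 j (Finset.mem_filter.1 hj).1 hij
          exact (hx.2.le.trans this).trans hy.1.le
      _ ≤ eVariationOn γ J := by
          apply eVariationOn.mono
          intro x hx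
          simp only [mem_iUnion] at hx
          obtain ⟨i, hi, hxi⟩ := hx
          have h := Finset.mem_filter.1 hi
          rw [← h.2]
          exact (hcomp i h.1).1 hxi
  have hmaps : ∀ i ∈ s, comp i ∈ s.image comp := fun i hi => Finset.mem_image_of_mem _ hi
  rw [← Finset.sum_fiberwise_of_maps_to hmaps]
  calc ∑ J ∈ s.image comp, ∑ i ∈ s with comp i = J, edist (γ (c i)) (γ (d i))
      ≤ ∑ J ∈ s.image comp, eVariationOn γ J := Finset.sum_le_sum key
    _ ≤ lengthOutside K γ := by
      unfold lengthOutside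
      have hmem : ∀ J ∈ s.image comp, ∃ t ∈ U, J = connectedComponentIn U t := by
        intro J hJ
        obtain ⟨i, hi, rfl⟩ := Finset.mem_image.1 hJ
        exact (hcomp i hi).2
      have : ∑ J ∈ s.image comp, eVariationOn γ J
          = ∑ J ∈ (s.image comp).subtype (fun J => ∃ t ∈ U, J = connectedComponentIn U t),
              eVariationOn γ (J : Set I) := by
        rw [Finset.sum_subtype_of_mem (fun J => eVariationOn γ J) hmem]
      rw [this]
      exact ENNReal.sum_le_tsum (f := fun J : {J : Set I // ∃ t ∈ U, J = connectedComponentIn U t}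
        => eVariationOn γ (J : Set I)) _

/-- crossing windows of a continuous real function on the unit interval -/
theorem exists_window {g : I → ℝ} (hg : Continuous g) {c d : ℝ} (hcd : c < d)
    (h0 : g 0 ≤ c) (h1 : d ≤ g 1) :
    ∃ a b : I, a < b ∧ g a = c ∧ g b = d ∧ (∀ τ ∈ Icc a b, g τ ∈ Icc c d) ∧
      (∀ τ < b, g τ < d) := by
  -- first time above d
  set S : Set I := {τ | d ≤ g τ} with hS
  have hSc : IsClosed S := isClosed_le continuous_const hg
  have hSne : S.Nonempty := ⟨1, h1⟩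
  set b := sInf S with hb
  have hbS : b ∈ S := hSc.sInf_mem hSne
  have hlt : ∀ τ < b, g τ < d := by
    intro τ hτ
    by_contra hcon
    exact absurd (csInf_le (OrderBot.bddBelow S) (not_lt.1 hcon : τ ∈ S)) (not_le.2 hτ)
  have hgb : g b = d := by
    refine le_antisymm ?_ hbS
    by_contra hcon
    push Not at hcon
    -- intermediate value on [0,b]
    have hiv : d ∈ g '' Icc 0 b := by
      apply intermediate_value_Icc (unitInterval.nonneg' (t := b)) hg.continuousOn
      exact ⟨h0.trans hcd.le, hcon.le⟩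
    obtain ⟨τ, hτ, hgτ⟩ := hiv
    rcases eq_or_lt_of_le hτ.2 with h | h
    · rw [h] at hgτ; linarith
    · exact absurd hgτ (ne_of_lt (hlt τ h))
  set P : Set I := {τ | τ ≤ b ∧ g τ ≤ c} with hP
  have hPc : IsClosed P := (isClosed_le continuous_id continuous_const).inter
    (isClosed_le hg continuous_const)
  have hPne : P.Nonempty := ⟨0, unitInterval.nonneg', h0⟩
  set a := sSup P with ha
  have haP : a ∈ P := hPc.sSup_mem hPne
  have hab : a < b := by
    refine lt_of_le_of_ne haP.1 ?_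
    intro h
    have := haP.2
    rw [h, hgb] at this
    linarith
  have hgt : ∀ τ, a < τ → τ ≤ b → c < g τ := by
    intro τ h1 h2
    by_contra hcon
    exact absurd (le_csSup (OrderTop.bddAbove P) (⟨h2, not_lt.1 hcon⟩ : τ ∈ P)) (not_le.2 h1)
  have hga : g a = c := by
    refine le_antisymm haP.2 ?_
    by_contra hcon
    push Not at hcon
    have hiv : c ∈ g '' Icc a b := by
      apply intermediate_value_Icc hab.le hg.continuousOn
      exact ⟨hcon.le, by rw [hgb]; exact hcd.le⟩
    obtain ⟨τ, hτ, hgτ⟩ := hiv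
    rcases eq_or_lt_of_le hτ.1 with h | h
    · rw [← h] at hgτ; linarith
    · exact absurd hgτ (ne_of_gt (hgt τ h hτ.2))
  refine ⟨a, b, hab, hga, hgb, ?_, hlt⟩
  intro τ hτ
  constructor
  · rcases eq_or_lt_of_le hτ.1 with h | h
    · rw [← h, hga]
    · exact (hgt τ h hτ.2).le
  · rcases eq_or_lt_of_le hτ.2 with h | h
    · rw [h, hgb]
    · exact (hlt τ h).le

/-- two disjoint compact sets of times: there is a gap between them. -/
theorem exists_gap {P Q : Set I} (hP : IsCompact P) (hQ : IsCompact Q) (hPn : P.Nonempty)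
    (hQn : Q.Nonempty) (hPQ : Disjoint P Q) :
    ∃ u ∈ P, ∃ τ ∈ Q, min u τ < max u τ ∧
      ∀ s ∈ Ioo (min u τ) (max u τ), s ∉ P ∧ s ∉ Q := by
  have hcont : Continuous (fun x : I × I => dist x.1 x.2) := continuous_fst.dist continuous_snd
  obtain ⟨⟨u, τ⟩, hst, hmin⟩ := (hP.prod hQ).exists_isMinOn (hPn.prod hQn) hcont.continuousOn
  refine ⟨u, hst.1, τ, hst.2, ?_, ?_⟩
  · rw [min_lt_max]
    intro h
    exact Set.disjoint_left.1 hPQ hst.1 (h ▸ hst.2)
  · intro s hs
    have hd : dist u τ = |(u : ℝ) - τ| := rfl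
    constructor
    · intro hsP
      have := hmin (show (s, τ) ∈ P ×ˢ Q from ⟨hsP, hst.2⟩)
      simp only [Set.mem_ofPred_eq] at this
      have h2 : |(u:ℝ) - τ| ≤ |(s:ℝ) - τ| := this
      rcases le_total u τ with h | h
      · rw [min_eq_left h, max_eq_right h] at hs
        have h3 : (u:ℝ) < s := hs.1
        have h4 : (s:ℝ) < τ := hs.2
        rw [abs_of_neg (by linarith), abs_of_neg (by linarith)] at h2
        linarith
      · rw [min_eq_right h, max_eq_left h] at hs
        have h3 : (τ:ℝ) < s := hs.1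
        have h4 : (s:ℝ) < u := hs.2
        rw [abs_of_pos (by linarith), abs_of_pos (by linarith)] at h2
        linarith
    · intro hsQ
      have := hmin (show (u, s) ∈ P ×ˢ Q from ⟨hst.1, hsQ⟩)
      simp only [Set.mem_ofPred_eq] at this
      have h2 : |(u:ℝ) - τ| ≤ |(u:ℝ) - s| := this
      rcases le_total u τ with h | h
      · rw [min_eq_left h, max_eq_right h] at hs
        have h3 : (u:ℝ) < s := hs.1
        have h4 : (s:ℝ) < τ := hs.2
        rw [abs_of_neg (by linarith), abs_of_neg (by linarith)] at h2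
        linarith
      · rw [min_eq_right h, max_eq_left h] at hs
        have h3 : (τ:ℝ) < s := hs.1
        have h4 : (s:ℝ) < u := hs.2
        rw [abs_of_pos (by linarith), abs_of_pos (by linarith)] at h2
        linarith

/-- side of the wall number k -/
def side (k : ℕ) : ℝ := if Odd k then 1 else 0

/-- The window lemma. -/
theorem window_dichotomy {E : Type*} [PseudoMetricSpace E] {K : Set E} (hK : IsClosed K)
    {X T Z : E → ℝ} (hT : LipschitzWith 1 T) (hZ : LipschitzWith 1 Z)
    {N : ℕ} (hN : 0 < N) {ζ : ℕ → ℝ}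
    (h2 : ∀ y ∈ K, (∃ k < N, (k:ℝ) / N ≤ T y ∧ T y ≤ (k + 1) / N ∧ ζ k ≤ Z y ∧ Z y ≤ ζ k + 1 / N) ∨
      (∃ k, 0 < k ∧ k < N ∧ T y = k / N ∧ X y = side k))
    {f : I → E} (hf : Continuous f) {k : ℕ} (hk0 : 0 < k) (hkN : k < N)
    (h1 : (2:ℝ) / N ≤ |ζ k - ζ (k-1)|)
    {a b : I} (hab : a < b) (hTa : T (f a) = ((k:ℝ) - 1/2) / N) (hTb : T (f b) = ((k:ℝ) + 1/2) / N)
    (hTab : ∀ τ ∈ Icc a b, T (f τ) ∈ Icc (((k:ℝ) - 1/2) / N) (((k:ℝ) + 1/2) / N)) :
    (∃ θ ∈ Icc a b, X (f θ) = side k) ∨
    ∃ u τ : I, a ≤ u ∧ u < τ ∧ τ ≤ b ∧ Ioo u τ ⊆ f ⁻¹' Kᶜ ∧ 1 / (2 * N) ≤ dist (f u) (f τ) := by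
  by_cases hhit : ∃ θ ∈ Icc a b, X (f θ) = side k
  · exact Or.inl hhit
  right
  push Not at hhit
  have hNr : (0:ℝ) < N := Nat.cast_pos.2 hN
  set Low : Set I := {τ | τ ∈ Icc a b ∧ f τ ∈ K ∧ T (f τ) ≤ k / N ∧ ζ (k-1) ≤ Z (f τ) ∧
    Z (f τ) ≤ ζ (k-1) + 1 / N} with hLow
  set High : Set I := {τ | τ ∈ Icc a b ∧ f τ ∈ K ∧ (k:ℝ) / N ≤ T (f τ) ∧ ζ k ≤ Z (f τ) ∧
    Z (f τ) ≤ ζ k + 1 / N} with hHigh
  have hTc : Continuous (fun τ => T (f τ)) := hT.continuous.comp hf
  have hZc : Continuous (fun τ => Z (f τ)) := hZ.continuous.comp hf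
  have hLowc : IsClosed Low := by
    refine isClosed_Icc.inter ((hK.preimage hf).inter ((isClosed_le hTc continuous_const).inter
      ((isClosed_le continuous_const hZc).inter (isClosed_le hZc continuous_const))))
  have hHighc : IsClosed High := by
    refine isClosed_Icc.inter ((hK.preimage hf).inter ((isClosed_le continuous_const hTc).inter
      ((isClosed_le continuous_const hZc).inter (isClosed_le hZc continuous_const))))
  have hcov : ∀ τ ∈ Icc a b, f τ ∈ K → τ ∈ Low ∨ τ ∈ High := by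
    intro τ hτ hfK
    have hT' := hTab τ hτ
    rw [mem_Icc, div_le_iff₀ hNr, le_div_iff₀ hNr] at hT'
    rcases h2 (f τ) hfK with ⟨k', hk'N, hk1, hk2, hk3, hk4⟩ | ⟨k', hk'0, hk'N, hk1, hk2⟩
    · rw [div_le_iff₀ hNr] at hk1
      rw [le_div_iff₀ hNr] at hk2
      have e1 : (k':ℝ) < k + 1 := by linarith [hT'.2]
      have e2 : (k:ℝ) < k' + 2 := by linarith [hT'.1]
      have e1' : k' < k + 1 := by exact_mod_cast e1
      have e2' : k < k' + 2 := by exact_mod_cast e2
      rcases (by omega : k' = k ∨ k' = k - 1) with h | h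
      · right
        subst h
        exact ⟨hτ, hfK, by rw [div_le_iff₀ hNr]; exact hk1, hk3, hk4⟩
      · left
        have hc : (k':ℝ) + 1 = k := by
          have : k' + 1 = k := by omega
          exact_mod_cast this
        refine ⟨hτ, hfK, by rw [le_div_iff₀ hNr, ← hc]; exact hk2, ?_, ?_⟩
        · rw [← h]; exact hk3
        · rw [← h]; exact hk4
    · exfalso
      have e0 : T (f τ) * N = k' := by rw [hk1]; field_simp
      have e1 : (k':ℝ) < k + 1 := by linarith [hT'.2]
      have e2 : (k:ℝ) < k' + 1 := by linarith [hT'.1]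
      have e1' : k' < k + 1 := by exact_mod_cast e1
      have e2' : k < k' + 1 := by exact_mod_cast e2
      have : k' = k := by omega
      subst this
      exact hhit τ hτ hk2
  set P := Low ∪ {a} with hPdef
  set Q := High ∪ {b} with hQdef
  have hPc : IsCompact P := (hLowc.union isClosed_singleton).isCompact
  have hQc : IsCompact Q := (hHighc.union isClosed_singleton).isCompact
  have hTd : ∀ x y : E, |T x - T y| ≤ dist x y := by
    intro x y
    have := hT.dist_le_mul x y
    rwa [NNReal.coe_one, one_mul, Real.dist_eq] at this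
  have hZd : ∀ x y : E, |Z x - Z y| ≤ dist x y := by
    intro x y
    have := hZ.dist_le_mul x y
    rwa [NNReal.coe_one, one_mul, Real.dist_eq] at this
  have hN2 : (1:ℝ) / (2 * N) = (1/2) / N := by field_simp
  have hdist : ∀ u ∈ P, ∀ τ ∈ Q, 1 / (2 * (N:ℝ)) ≤ dist (f u) (f τ) := by
    intro u hu τ hτ
    rw [hN2]
    rcases hu with hu | hu <;> rcases hτ with hτ | hτ
    · -- low, high
      refine le_trans ?_ (hZd (f u) (f τ))
      obtain ⟨-, -, -, hz1, hz2⟩ := hu
      obtain ⟨-, -, -, hz3, hz4⟩ := hτ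
      have e : (2:ℝ) / N = 1 / N + 1 / N := by ring
      have e2 : (1/2:ℝ) / N ≤ 1 / N := by gcongr; norm_num
      rw [abs_sub_comm]
      rcases le_abs.1 h1 with h | h
      · refine le_trans ?_ (le_abs_self _)
        linarith
      · refine le_trans ?_ (neg_le_abs _)
        linarith
    · -- low, b
      rw [mem_singleton_iff] at hτ
      rw [hτ]
      refine le_trans ?_ (hTd (f u) (f b))
      rw [hTb, abs_sub_comm]
      refine le_trans ?_ (le_abs_self _)
      have := hu.2.2.1
      have e : ((k:ℝ) + 1/2) / N = k / N + (1/2) / N := by ring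
      linarith
    · -- a, high
      rw [mem_singleton_iff] at hu
      rw [hu]
      refine le_trans ?_ (hTd (f a) (f τ))
      rw [hTa, abs_sub_comm]
      refine le_trans ?_ (le_abs_self _)
      have := hτ.2.2.1
      have e : ((k:ℝ) - 1/2) / N = k / N - (1/2) / N := by ring
      linarith
    · rw [mem_singleton_iff] at hu hτ
      rw [hu, hτ]
      refine le_trans ?_ (hTd (f a) (f b))
      rw [hTa, hTb, abs_sub_comm]
      refine le_trans ?_ (le_abs_self _)
      have e : ((k:ℝ) - 1/2) / N = k / N - (1/2) / N := by ring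
      have e' : ((k:ℝ) + 1/2) / N = k / N + (1/2) / N := by ring
      have : (0:ℝ) ≤ (1/2) / N := by positivity
      linarith
  have hpos : (0:ℝ) < 1 / (2 * N) := by positivity
  have hdisj : Disjoint P Q := by
    rw [Set.disjoint_left]
    intro s hsP hsQ
    have := hdist s hsP s hsQ
    rw [dist_self] at this
    linarith
  obtain ⟨u, hu, τ, hτ, hlt, hgap⟩ := exists_gap hPc hQc ⟨a, Or.inr rfl⟩ ⟨b, Or.inr rfl⟩ hdisj
  have huI : u ∈ Icc a b := by
    rcases hu with h | h
    · exact h.1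
    · rw [mem_singleton_iff] at h; rw [h]; exact left_mem_Icc.2 hab.le
  have hτI : τ ∈ Icc a b := by
    rcases hτ with h | h
    · exact h.1
    · rw [mem_singleton_iff] at h; rw [h]; exact right_mem_Icc.2 hab.le
  refine ⟨min u τ, max u τ, le_min huI.1 hτI.1, hlt, max_le huI.2 hτI.2, ?_, ?_⟩
  · intro s hs hsK
    have hsI : s ∈ Icc a b := ⟨(le_min huI.1 hτI.1).trans hs.1.le, hs.2.le.trans (max_le huI.2 hτI.2)⟩
    rcases hcov s hsI hsK with h | h
    · exact (hgap s hs).1 (Or.inl h)
    · exact (hgap s hs).2 (Or.inl h)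
  · rcases le_total u τ with h | h
    · rw [min_eq_left h, max_eq_right h]; exact hdist u hu τ hτ
    · rw [min_eq_right h, max_eq_left h, dist_comm]; exact hdist u hu τ hτ

theorem side_succ (k : ℕ) : |side (k+1) - side k| = 1 := by
  unfold side
  rcases Nat.even_or_odd k with h | h
  · have h1 : Odd (k+1) := h.add_one
    have h2 : ¬ Odd k := Nat.not_odd_iff_even.2 h
    simp [h1, h2]
  · have h1 : ¬ Odd (k+1) := Nat.not_odd_iff_even.2 h.add_one
    simp [h1, h]

/-- The main lower bound. -/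
theorem main_lower_bound {E : Type*} [PseudoMetricSpace E] {K : Set E} (hK : IsClosed K)
    {X T Z : E → ℝ} (hX : LipschitzWith 1 X) (hT : LipschitzWith 1 T) (hZ : LipschitzWith 1 Z)
    (hlev : ∀ M : ℕ, ∃ N : ℕ, M ≤ N ∧ 0 < N ∧ ∃ ζ : ℕ → ℝ,
      (∀ k, 0 < k → k < N → (2:ℝ) / N ≤ |ζ k - ζ (k-1)|) ∧
      (∀ y ∈ K, (∃ k < N, (k:ℝ) / N ≤ T y ∧ T y ≤ (k + 1) / N ∧ ζ k ≤ Z y ∧ Z y ≤ ζ k + 1 / N) ∨
      (∃ k, 0 < k ∧ k < N ∧ T y = k / N ∧ X y = side k)))
    {p q : E} (hp : T p ≤ 0) (hq : 1 ≤ T q) (γ : Path p q) :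
    ENNReal.ofReal (1/4) ≤ lengthOutside K γ := by
  classical
  by_contra hcon
  rw [not_le] at hcon
  have hfin : lengthOutside K γ ≠ ⊤ := ne_top_of_lt hcon
  set l := (lengthOutside K γ).toReal with hl
  have hl0 : 0 ≤ l := ENNReal.toReal_nonneg
  have hl4 : l < 1/4 := by
    rw [hl]
    have := (ENNReal.toReal_lt_toReal hfin ENNReal.ofReal_ne_top).2 hcon
    rwa [ENNReal.toReal_ofReal (by norm_num)] at this
  -- uniform continuity
  have huc : UniformContinuous (fun τ : I => X (γ τ)) :=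
    CompactSpace.uniformContinuous_of_continuous (hX.continuous.comp γ.continuous)
  obtain ⟨δ, hδ, hδ'⟩ := Metric.uniformContinuous_iff.1 huc 1 one_pos
  obtain ⟨M, hM⟩ := exists_nat_gt ((2 + 1/δ) / (1 - 4 * l))
  obtain ⟨N, hMN, hN0, ζ, h1, h2⟩ := hlev M
  have hNr : (0:ℝ) < N := Nat.cast_pos.2 hN0
  have hbig : 2 + 1/δ < (1 - 4*l) * N := by
    have h3 : (2 + 1/δ) / (1 - 4 * l) < N := hM.trans_le (by exact_mod_cast hMN)
    rwa [div_lt_iff₀ (by linarith), mul_comm] at h3
  have hTc : Continuous (fun τ : I => T (γ τ)) := hT.continuous.comp γ.continuous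
  have hwin : ∀ k : ℕ, ∃ a b : I, 0 < k → k < N → a < b ∧ T (γ a) = ((k:ℝ) - 1/2) / N ∧
      T (γ b) = ((k:ℝ) + 1/2) / N ∧
      (∀ τ ∈ Icc a b, T (γ τ) ∈ Icc (((k:ℝ) - 1/2) / N) (((k:ℝ) + 1/2) / N)) ∧
      (∀ τ < b, T (γ τ) < ((k:ℝ) + 1/2) / N) := by
    intro k
    by_cases hk : 0 < k ∧ k < N
    · have hk1 : (1:ℝ) ≤ k := by exact_mod_cast hk.1
      have hk2 : (k:ℝ) + 1 ≤ N := by exact_mod_cast hk.2
      obtain ⟨a, b, hab, ha, hb, hI, hlt⟩ := exists_window hTc
        (c := ((k:ℝ) - 1/2) / N) (d := ((k:ℝ) + 1/2) / N) (by gcongr; linarith)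
        (by
          rw [γ.source]
          refine hp.trans ?_
          apply div_nonneg _ hNr.le
          linarith)
        (by
          rw [γ.target]
          refine le_trans ?_ hq
          rw [div_le_one hNr]
          linarith)
      exact ⟨a, b, fun _ _ => ⟨hab, ha, hb, hI, hlt⟩⟩
    · exact ⟨0, 0, fun h h' => absurd ⟨h, h'⟩ hk⟩
  choose a b hab using hwin
  have hord : ∀ i j, 0 < i → i < j → j < N → b i ≤ a j := by
    intro i j hi hij hj
    by_contra hc
    rw [not_le] at hc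
    have e1 := (hab i hi (hij.trans hj)).2.2.2.2 (a j) hc
    rw [(hab j (hi.trans hij) hj).2.1] at e1
    rw [div_lt_div_iff_of_pos_right hNr] at e1
    have : (i:ℝ) + 1 ≤ j := by exact_mod_cast hij
    linarith
  let H : ℕ → Prop := fun k => ∃ θ ∈ Icc (a k) (b k), X (γ θ) = side k
  have hθ : ∀ k, ∃ θ : I, 0 < k → k < N → (θ ∈ Icc (a k) (b k) ∧ (H k → X (γ θ) = side k)) := by
    intro k
    by_cases hH : H k
    · obtain ⟨θ, h3, h4⟩ := hH
      exact ⟨θ, fun _ _ => ⟨h3, fun _ => h4⟩⟩
    · exact ⟨a k, fun h h' => ⟨left_mem_Icc.2 (hab k h h').1.le, fun h5 => absurd h5 hH⟩⟩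
  choose θ hθ using hθ
  have hgap : ∀ k, ∃ c d : I, 0 < k → k < N → ¬ H k → (a k ≤ c ∧ c < d ∧ d ≤ b k ∧
      Ioo c d ⊆ γ ⁻¹' Kᶜ ∧ 1 / (2 * (N:ℝ)) ≤ dist (γ c) (γ d)) := by
    intro k
    by_cases hk : 0 < k ∧ k < N ∧ ¬ H k
    · obtain ⟨hk0, hkN, hH⟩ := hk
      obtain ⟨e1, e2, e3, e4, e5⟩ := hab k hk0 hkN
      rcases window_dichotomy hK hT hZ hN0 h2 γ.continuous hk0 hkN (h1 k hk0 hkN) e1 e2 e3 e4 with
        h | ⟨c, d, h⟩
      · exact absurd h hH
      · exact ⟨c, d, fun _ _ _ => h⟩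
    · exact ⟨0, 0, fun h h' h'' => absurd ⟨h, h', h''⟩ hk⟩
  choose c d hcd using hgap
  -- sets of indices
  set S := (Finset.range (N-2)).filter (fun i => H (i+1) ∧ H (i+2)) with hS
  set B := (Finset.range (N-1)).filter (fun i => ¬ H (i+1)) with hB
  have hScard : (S.card : ℝ) * δ ≤ 1 := by
    have hmono : ∀ i < N - 2, (θ (i+1) : ℝ) ≤ θ (i+2) := by
      intro i hi
      have e1 := (hθ (i+1) (by omega) (by omega)).1
      have e2 := (hθ (i+2) (by omega) (by omega)).1
      have e3 := hord (i+1) (i+2) (by omega) (by omega) (by omega)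
      exact (e1.2.trans e3).trans e2.1
    calc (S.card : ℝ) * δ = ∑ i ∈ S, δ := by rw [Finset.sum_const, nsmul_eq_mul]
      _ ≤ ∑ i ∈ S, ((θ (i+2) : ℝ) - θ (i+1)) := by
          apply Finset.sum_le_sum
          intro i hi
          obtain ⟨hi1, hi2, hi3⟩ := Finset.mem_filter.1 hi
          rw [Finset.mem_range] at hi1
          have e1 := (hθ (i+1) (by omega) (by omega)).2 hi2
          have e2 := (hθ (i+2) (by omega) (by omega)).2 hi3
          by_contra hc
          rw [not_le] at hc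
          have e3 : dist (θ (i+2)) (θ (i+1)) < δ := by
            rw [Subtype.dist_eq, Real.dist_eq, abs_of_nonneg (by linarith [hmono i hi1])]
            exact hc
          have e4 := hδ' e3
          rw [e1, e2, Real.dist_eq, side_succ] at e4
          exact lt_irrefl _ e4
      _ ≤ ∑ i ∈ Finset.range (N-2), ((θ (i+2) : ℝ) - θ (i+1)) := by
          apply Finset.sum_le_sum_of_subset_of_nonneg (Finset.filter_subset _ _)
          intro i hi _
          rw [Finset.mem_range] at hi
          linarith [hmono i hi]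
      _ = θ (N-2+1) - θ (0+1) := Finset.sum_range_sub (fun i => (θ (i+1) : ℝ)) (N-2)
      _ ≤ 1 := by
          have := (θ (N-2+1)).2.2
          have := (θ (0+1)).2.1
          linarith
  have hcount : N - 2 ≤ S.card + 2 * B.card := by
    have e1 : (Finset.range (N-2)) ⊆ S ∪ (B ∪ (B.image (fun i => i - 1))) := by
      intro i hi
      simp only [Finset.mem_union, hS, hB, Finset.mem_filter, Finset.mem_image]
      rw [Finset.mem_range] at hi
      by_cases ha : H (i+1)
      · by_cases hb : H (i+2)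
        · exact Or.inl ⟨Finset.mem_range.2 hi, ha, hb⟩
        · refine Or.inr (Or.inr ⟨i+1, ⟨Finset.mem_range.2 (by omega), hb⟩, by omega⟩)
      · exact Or.inr (Or.inl ⟨Finset.mem_range.2 (by omega), ha⟩)
    have e2 := Finset.card_le_card e1
    rw [Finset.card_range] at e2
    have e3 := Finset.card_union_le S (B ∪ (B.image (fun i => i - 1)))
    have e4 := Finset.card_union_le B (B.image (fun i => i - 1))
    have e5 : (B.image (fun i => i - 1)).card ≤ B.card := Finset.card_image_le
    omega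
  have hlen : ∑ i ∈ B, edist (γ (c (i+1))) (γ (d (i+1))) ≤ lengthOutside K γ := by
    apply sum_le_lengthOutside γ B (fun i => c (i+1)) (fun i => d (i+1))
    · intro i hi
      obtain ⟨hi1, hi2⟩ := Finset.mem_filter.1 hi
      rw [Finset.mem_range] at hi1
      exact (hcd (i+1) (by omega) (by omega) hi2).2.1
    · intro i hi j hj hij
      obtain ⟨hi1, hi2⟩ := Finset.mem_filter.1 hi
      obtain ⟨hj1, hj2⟩ := Finset.mem_filter.1 hj
      rw [Finset.mem_range] at hi1 hj1
      have e1 := (hcd (i+1) (by omega) (by omega) hi2).2.2.1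
      have e2 := (hcd (j+1) (by omega) (by omega) hj2).1
      exact (e1.trans (hord (i+1) (j+1) (by omega) (by omega) (by omega))).trans e2
    · intro i hi
      obtain ⟨hi1, hi2⟩ := Finset.mem_filter.1 hi
      rw [Finset.mem_range] at hi1
      exact (hcd (i+1) (by omega) (by omega) hi2).2.2.2.1
  have hlow : ENNReal.ofReal ((B.card : ℝ) * (1 / (2 * N))) ≤ lengthOutside K γ := by
    refine le_trans ?_ hlen
    rw [ENNReal.ofReal_mul (Nat.cast_nonneg _), ENNReal.ofReal_natCast, ← nsmul_eq_mul,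
      ← Finset.sum_const]
    apply Finset.sum_le_sum
    intro i hi
    obtain ⟨hi1, hi2⟩ := Finset.mem_filter.1 hi
    rw [Finset.mem_range] at hi1
    rw [edist_dist]
    exact ENNReal.ofReal_le_ofReal (hcd (i+1) (by omega) (by omega) hi2).2.2.2.2
  have hlow' : (B.card : ℝ) * (1 / (2 * N)) ≤ l := by
    rw [hl]
    have := (ENNReal.toReal_le_toReal ENNReal.ofReal_ne_top hfin).2 hlow
    rwa [ENNReal.toReal_ofReal (by positivity)] at this
  have hlow2 : (B.card : ℝ) ≤ 2 * l * N := by
    have e : (B.card : ℝ) * (1 / (2 * N)) = B.card / (2 * N) := by ring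
    rw [e, div_le_iff₀ (by positivity)] at hlow'
    linarith
  have hS2 : (S.card : ℝ) ≤ 1/δ := by
    rw [le_div_iff₀ hδ]; exact hScard
  have hcount' : (N:ℝ) - 2 ≤ S.card + 2 * B.card := by
    have : N ≤ S.card + 2 * B.card + 2 := by omega
    have : (N:ℝ) ≤ S.card + 2 * B.card + 2 := by exact_mod_cast this
    linarith
  linarith

/-! ### The continuum -/

/-- the three self-maps -/
noncomputable def T0 (p : ℝ × ℝ × ℝ) : ℝ × ℝ × ℝ := (p.1, p.2.1 / 3, p.2.2 / 3)
noncomputable def T1 (p : ℝ × ℝ × ℝ) : ℝ × ℝ × ℝ := (1 - p.1, (p.2.1 + 1) / 3, (p.2.2 + 2) / 3)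
noncomputable def T2 (p : ℝ × ℝ × ℝ) : ℝ × ℝ × ℝ := (p.1, (p.2.1 + 2) / 3, p.2.2 / 3)
def G1 : Set (ℝ × ℝ × ℝ) := {1} ×ˢ ({1/3} ×ˢ Icc 0 (2/3))
def G2 : Set (ℝ × ℝ × ℝ) := {0} ×ˢ ({2/3} ×ˢ Icc 0 (2/3))

def Kst : ℕ → Set (ℝ × ℝ × ℝ)
  | 0 => Icc 0 1 ×ˢ (Icc 0 1 ×ˢ Icc 0 1)
  | j+1 => (((T0 '' Kst j ∪ G1) ∪ T1 '' Kst j) ∪ G2) ∪ T2 '' Kst j

theorem continuous_T0 : Continuous T0 := by unfold T0; fun_prop
theorem continuous_T1 : Continuous T1 := by unfold T1; fun_prop
theorem continuous_T2 : Continuous T2 := by unfold T2; fun_prop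

theorem isCompact_G1 : IsCompact G1 := isCompact_singleton.prod (isCompact_singleton.prod isCompact_Icc)
theorem isCompact_G2 : IsCompact G2 := isCompact_singleton.prod (isCompact_singleton.prod isCompact_Icc)

theorem isPreconnected_G1 : IsPreconnected G1 :=
  isPreconnected_singleton.prod (isPreconnected_singleton.prod isPreconnected_Icc)
theorem isPreconnected_G2 : IsPreconnected G2 :=
  isPreconnected_singleton.prod (isPreconnected_singleton.prod isPreconnected_Icc)

theorem isCompact_Kst (j : ℕ) : IsCompact (Kst j) := by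
  induction j with
  | zero => exact isCompact_Icc.prod (isCompact_Icc.prod isCompact_Icc)
  | succ j ih =>
    exact ((((ih.image continuous_T0).union isCompact_G1).union (ih.image continuous_T1)).union
      isCompact_G2).union (ih.image continuous_T2)

theorem Kst_succ_subset (j : ℕ) : Kst (j+1) ⊆ Kst j := by
  induction j with
  | zero =>
    rintro ⟨x, t, z⟩ hp
    simp only [Kst, mem_union, mem_image, Prod.exists, mem_prod, mem_Icc, G1, G2,
      mem_singleton_iff, T0, T1, T2, Prod.mk.injEq] at hp ⊢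
    rcases hp with (((⟨x', t', z', h, h1, h2, h3⟩ | h) | ⟨x', t', z', h, h1, h2, h3⟩) | h) |
      ⟨x', t', z', h, h1, h2, h3⟩
    · subst h1 h2 h3
      refine ⟨⟨by linarith, by linarith⟩, ⟨by linarith, by linarith⟩, ⟨by linarith, by linarith⟩⟩
    · refine ⟨⟨by linarith, by linarith⟩, ⟨by linarith, by linarith⟩, ⟨by linarith, by linarith⟩⟩
    · subst h1 h2 h3
      refine ⟨⟨by linarith, by linarith⟩, ⟨by linarith, by linarith⟩, ⟨by linarith, by linarith⟩⟩
    · refine ⟨⟨by linarith, by linarith⟩, ⟨by linarith, by linarith⟩, ⟨by linarith, by linarith⟩⟩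
    · subst h1 h2 h3
      refine ⟨⟨by linarith, by linarith⟩, ⟨by linarith, by linarith⟩, ⟨by linarith, by linarith⟩⟩
  | succ j ih =>
    have h0 := image_mono (f := T0) ih
    have h1 := image_mono (f := T1) ih
    have h2 := image_mono (f := T2) ih
    show (((T0 '' Kst (j+1) ∪ G1) ∪ T1 '' Kst (j+1)) ∪ G2) ∪ T2 '' Kst (j+1) ⊆
      (((T0 '' Kst j ∪ G1) ∪ T1 '' Kst j) ∪ G2) ∪ T2 '' Kst j
    exact union_subset_union (union_subset_union_left _ (union_subset_union
      (union_subset_union_left _ h0) h1)) h2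

theorem antitone_Kst : Antitone Kst := antitone_nat_of_succ_le Kst_succ_subset

theorem p_mem_Kst (j : ℕ) : ((0, 0, 0) : ℝ × ℝ × ℝ) ∈ Kst j := by
  induction j with
  | zero => simp [Kst]
  | succ j ih =>
    refine Or.inl (Or.inl (Or.inl (Or.inl ⟨_, ih, ?_⟩)))
    simp [T0]

theorem q_mem_Kst (j : ℕ) : ((1, 1, 0) : ℝ × ℝ × ℝ) ∈ Kst j := by
  induction j with
  | zero => simp [Kst]
  | succ j ih =>
    refine Or.inr ⟨_, ih, ?_⟩
    simp only [T2, Prod.mk.injEq]
    norm_num

theorem isPreconnected_Kst (j : ℕ) : IsPreconnected (Kst j) := by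
  induction j with
  | zero => exact isPreconnected_Icc.prod (isPreconnected_Icc.prod isPreconnected_Icc)
  | succ j ih =>
    have a1 : ((1, 1/3, 0) : ℝ × ℝ × ℝ) ∈ T0 '' Kst j :=
      ⟨_, q_mem_Kst j, by simp [T0]⟩
    have a2 : ((1, 1/3, 0) : ℝ × ℝ × ℝ) ∈ G1 := by
      simp only [G1, mem_prod, mem_singleton_iff, mem_Icc]; norm_num
    have a3 : ((1, 1/3, 2/3) : ℝ × ℝ × ℝ) ∈ T1 '' Kst j :=
      ⟨_, p_mem_Kst j, by simp [T1]⟩
    have a4 : ((1, 1/3, 2/3) : ℝ × ℝ × ℝ) ∈ G1 := by
      simp only [G1, mem_prod, mem_singleton_iff, mem_Icc]; norm_num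
    have a5 : ((0, 2/3, 2/3) : ℝ × ℝ × ℝ) ∈ T1 '' Kst j :=
      ⟨_, q_mem_Kst j, by simp only [T1, Prod.mk.injEq]; norm_num⟩
    have a6 : ((0, 2/3, 2/3) : ℝ × ℝ × ℝ) ∈ G2 := by
      simp only [G2, mem_prod, mem_singleton_iff, mem_Icc]; norm_num
    have a7 : ((0, 2/3, 0) : ℝ × ℝ × ℝ) ∈ T2 '' Kst j :=
      ⟨_, p_mem_Kst j, by simp only [T2, Prod.mk.injEq]; norm_num⟩
    have a8 : ((0, 2/3, 0) : ℝ × ℝ × ℝ) ∈ G2 := by
      simp only [G2, mem_prod, mem_singleton_iff, mem_Icc]; norm_num
    have c0 := ih.image T0 continuous_T0.continuousOn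
    have c1 := ih.image T1 continuous_T1.continuousOn
    have c2 := ih.image T2 continuous_T2.continuousOn
    exact IsPreconnected.union (0, 2/3, 0) (Or.inr a8) a7
      (IsPreconnected.union (0, 2/3, 2/3) (Or.inr a5) a6
        (IsPreconnected.union (1, 1/3, 2/3) (Or.inr a4) a3
          (IsPreconnected.union (1, 1/3, 0) a1 a2 c0 isPreconnected_G1) c1) isPreconnected_G2) c2

theorem isPreconnected_iInter_of_antitone {Y : Type*} [TopologicalSpace Y] [T2Space Y]
    {F : ℕ → Set Y} (hF : Antitone F) (hc : ∀ j, IsCompact (F j)) (hp : ∀ j, IsPreconnected (F j)) :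
    IsPreconnected (⋂ j, F j) := by
  have hK : IsCompact (⋂ j, F j) :=
    (hc 0).of_isClosed_subset (isClosed_iInter fun j => (hc j).isClosed) (iInter_subset _ 0)
  rw [isPreconnected_closed_iff]
  intro A B hA hB hAB hKA hKB
  by_contra hcon
  rw [not_nonempty_iff_eq_empty] at hcon
  have hdis : Disjoint ((⋂ j, F j) ∩ A) ((⋂ j, F j) ∩ B) := by
    rw [Set.disjoint_left]
    rintro x ⟨hx, hxA⟩ ⟨-, hxB⟩
    have : x ∈ (⋂ j, F j) ∩ (A ∩ B) := ⟨hx, hxA, hxB⟩
    rw [hcon] at this
    exact this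
  obtain ⟨U, V, hU, hV, hAU, hBV, hUV⟩ :=
    SeparatedNhds.of_isCompact_isCompact (hK.inter_right hA) (hK.inter_right hB) hdis
  obtain ⟨j, hj⟩ := exists_subset_nhds_of_isCompact' (V := F)
    (hF.directed_ge) hc (fun j => (hc j).isClosed) (U := U ∪ V) (by
      intro x hx
      apply (hU.union hV).mem_nhds
      rcases hAB hx with h | h
      · exact Or.inl (hAU ⟨hx, h⟩)
      · exact Or.inr (hBV ⟨hx, h⟩))
  obtain ⟨x, hx, hxA⟩ := hKA
  obtain ⟨y, hy, hyB⟩ := hKB
  obtain ⟨w, hw, hwU, hwV⟩ := hp j U V hU hV hj ⟨x, mem_iInter.1 hx j, hAU ⟨hx, hxA⟩⟩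
    ⟨y, mem_iInter.1 hy j, hBV ⟨hy, hyB⟩⟩
  exact Set.disjoint_left.1 hUV hwU hwV

/-- the continuum in three-space -/
def K3 : Set (ℝ × ℝ × ℝ) := ⋂ j, Kst j

theorem isCompact_K3 : IsCompact K3 :=
  (isCompact_Kst 0).of_isClosed_subset (isClosed_iInter fun j => (isCompact_Kst j).isClosed)
    (iInter_subset _ 0)

theorem isConnected_K3 : IsConnected K3 :=
  ⟨⟨(0,0,0), mem_iInter.2 p_mem_Kst⟩,
    isPreconnected_iInter_of_antitone antitone_Kst isCompact_Kst isPreconnected_Kst⟩

/-- heights of the level `j` cells -/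
noncomputable def zeta : ℕ → ℕ → ℝ
  | 0, _ => 0
  | j+1, k => if k < 3^j then zeta j k / 3 else
      if k < 2 * 3^j then (zeta j (k - 3^j) + 2) / 3 else zeta j (k - 2 * 3^j) / 3

theorem zeta_first (j : ℕ) : zeta j 0 = 0 := by
  induction j with
  | zero => rfl
  | succ j ih =>
    have : 0 < 3^j := by positivity
    simp [zeta, ih]

theorem zeta_last (j : ℕ) : zeta j (3^j - 1) = 0 := by
  induction j with
  | zero => rfl
  | succ j ih =>
    have h : 0 < 3^j := by positivity
    have h1 : ¬ (3^(j+1) - 1 < 3^j) := by rw [pow_succ]; omega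
    have h2 : ¬ (3^(j+1) - 1 < 2 * 3^j) := by rw [pow_succ]; omega
    have h3 : 3^(j+1) - 1 - 2 * 3^j = 3^j - 1 := by rw [pow_succ]; omega
    rw [zeta, if_neg h1, if_neg h2, h3, ih]
    simp

theorem zeta_gap (j : ℕ) : ∀ k, 0 < k → k < 3^j → (2:ℝ) / 3^j ≤ |zeta j k - zeta j (k-1)| := by
  induction j with
  | zero => intro k h1 h2; simp at h2; omega
  | succ j ih =>
    intro k hk0 hk
    have h : 0 < 3^j := by positivity
    have hr : (0:ℝ) < 3^j := by positivity
    have h33 : (2:ℝ) / 3^(j+1) = (2 / 3^j) / 3 := by rw [pow_succ]; field_simp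
    have hle : (2:ℝ) / 3^(j+1) ≤ 2/3 := by
      rw [pow_succ]
      apply div_le_div_of_nonneg_left (by norm_num) (by norm_num)
      have : (1:ℝ) ≤ 3^j := one_le_pow₀ (by norm_num)
      linarith
    rw [pow_succ] at hk
    rcases lt_trichotomy k (3^j) with hlt | heq | hgt
    · have h1 : k - 1 < 3^j := by omega
      rw [zeta, zeta, if_pos hlt, if_pos h1, ← sub_div, abs_div, h33]
      have := ih k hk0 hlt
      rw [show |(3:ℝ)| = 3 by norm_num]
      linarith
    · have h1 : ¬ (k < 3^j) := by omega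
      have h2 : k < 2 * 3^j := by omega
      have h3 : k - 1 < 3^j := by omega
      rw [zeta, zeta, if_neg h1, if_pos h2, if_pos h3, heq, Nat.sub_self, zeta_first, zeta_last]
      refine hle.trans ?_
      norm_num
    · rcases lt_trichotomy k (2*3^j) with hlt2 | heq2 | hgt2
      · have h1 : ¬ (k < 3^j) := by omega
        have h3 : ¬ (k - 1 < 3^j) := by omega
        have h4 : k - 1 < 2 * 3^j := by omega
        rw [zeta, zeta, if_neg h1, if_pos hlt2, if_neg h3, if_pos h4, ← sub_div, abs_div, h33]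
        have := ih (k - 3^j) (by omega) (by omega)
        rw [show k - 1 - 3^j = k - 3^j - 1 by omega]
        rw [show |(3:ℝ)| = 3 by norm_num]
        have e : zeta j (k - 3 ^ j) + 2 - (zeta j (k - 3 ^ j - 1) + 2) =
          zeta j (k - 3 ^ j) - zeta j (k - 3 ^ j - 1) := by ring
        rw [e]
        linarith
      · have h1 : ¬ (k < 3^j) := by omega
        have h2 : ¬ (k < 2 * 3^j) := by omega
        have h3 : ¬ (k - 1 < 3^j) := by omega
        have h4 : k - 1 < 2 * 3^j := by omega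
        rw [zeta, zeta, if_neg h1, if_neg h2, if_neg h3, if_pos h4, heq2, Nat.sub_self,
          show 2 * 3^j - 1 - 3^j = 3^j - 1 by omega, zeta_first, zeta_last]
        refine hle.trans ?_
        norm_num
      · have h1 : ¬ (k < 3^j) := by omega
        have h2 : ¬ (k < 2 * 3^j) := by omega
        have h3 : ¬ (k - 1 < 3^j) := by omega
        have h4 : ¬ (k - 1 < 2 * 3^j) := by omega
        rw [zeta, zeta, if_neg h1, if_neg h2, if_neg h3, if_neg h4, ← sub_div, abs_div, h33]
        have := ih (k - 2 * 3^j) (by omega) (by omega)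
        rw [show k - 1 - 2 * 3^j = k - 2 * 3^j - 1 by omega]
        rw [show |(3:ℝ)| = 3 by norm_num]
        linarith

theorem side_add_odd {k m : ℕ} (hm : Odd m) : side (k + m) = 1 - side k := by
  unfold side
  rcases Nat.even_or_odd k with h | h
  · have h1 : Odd (k+m) := h.add_odd hm
    have h2 : ¬ Odd k := Nat.not_odd_iff_even.2 h
    simp [h1, h2]
  · have h1 : ¬ Odd (k+m) := Nat.not_odd_iff_even.2 (h.add_odd hm)
    simp [h1, h]

theorem side_add_even {k m : ℕ} (hm : Even m) : side (k + m) = side k := by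
  unfold side
  rcases Nat.even_or_odd k with h | h
  · have h1 : ¬ Odd (k+m) := Nat.not_odd_iff_even.2 (h.add hm)
    have h2 : ¬ Odd k := Nat.not_odd_iff_even.2 h
    simp [h1, h2]
  · have h1 : Odd (k+m) := h.add_even hm
    simp [h1, h]

theorem Kst_level (j : ℕ) : ∀ y ∈ Kst j,
    (∃ k : ℕ, k < 3^j ∧ (k:ℝ) / ((3^j : ℕ) : ℝ) ≤ y.2.1 ∧ y.2.1 ≤ (k + 1) / ((3^j : ℕ) : ℝ) ∧
      zeta j k ≤ y.2.2 ∧ y.2.2 ≤ zeta j k + 1 / ((3^j : ℕ) : ℝ)) ∨
    (∃ k : ℕ, 0 < k ∧ k < 3^j ∧ y.2.1 = k / ((3^j : ℕ) : ℝ) ∧ y.1 = side k) := by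
  induction j with
  | zero =>
    rintro ⟨x, t, z⟩ hy
    simp only [Kst, mem_prod, mem_Icc] at hy
    left
    refine ⟨0, by norm_num, ?_⟩
    simp only [zeta]
    norm_num
    exact ⟨hy.2.1.1, hy.2.1.2, hy.2.2.1, hy.2.2.2⟩
  | succ j ih =>
    have h : 0 < 3^j := by positivity
    have hr : (0:ℝ) < ((3^j : ℕ) : ℝ) := by exact_mod_cast h
    have hcast : ((3^(j+1) : ℕ) : ℝ) = 3 * ((3^j : ℕ) : ℝ) := by push_cast; ring
    have hodd : Odd (3^j) := Odd.pow (by decide)
    set N : ℝ := ((3^j : ℕ) : ℝ) with hN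
    rintro ⟨x, t, z⟩ hy
    rcases hy with (((⟨⟨x', t', z'⟩, h', he⟩ | h') | ⟨⟨x', t', z'⟩, h', he⟩) | h') |
      ⟨⟨x', t', z'⟩, h', he⟩
    · simp only [T0, Prod.mk.injEq] at he
      obtain ⟨rfl, rfl, rfl⟩ := he
      rcases ih _ h' with ⟨k, hk, e1, e2, e3, e4⟩ | ⟨k, hk0, hk, e1, e2⟩
      · left
        simp only at e1 e2 e3 e4 ⊢
        refine ⟨k, by rw [pow_succ]; omega, ?_, ?_, ?_, ?_⟩
        · rw [hcast, div_le_iff₀ (by positivity)]
          rw [div_le_iff₀ hr] at e1
          linarith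
        · rw [hcast, le_div_iff₀ (by positivity)]
          rw [le_div_iff₀ hr] at e2
          linarith
        · rw [zeta, if_pos hk]
          linarith
        · rw [zeta, if_pos hk, hcast]
          have : 1 / (3 * N) = (1 / N) / 3 := by field_simp
          linarith
      · right
        simp only at e1 e2 ⊢
        refine ⟨k, hk0, by rw [pow_succ]; omega, ?_, e2⟩
        rw [hcast, e1]
        field_simp
    · simp only [G1, mem_prod, mem_singleton_iff, mem_Icc] at h'
      right
      refine ⟨3^j, h, by rw [pow_succ]; omega, ?_, ?_⟩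
      · simp only
        rw [hcast, h'.2.1, ← hN]
        field_simp
      · simp only
        rw [h'.1, side, if_pos hodd]
    · simp only [T1, Prod.mk.injEq] at he
      obtain ⟨rfl, rfl, rfl⟩ := he
      rcases ih _ h' with ⟨k, hk, e1, e2, e3, e4⟩ | ⟨k, hk0, hk, e1, e2⟩
      · left
        simp only at e1 e2 e3 e4 ⊢
        have g1 : ¬ (k + 3^j < 3^j) := by omega
        have g2 : k + 3^j < 2 * 3^j := by omega
        have g3 : k + 3^j - 3^j = k := by omega
        refine ⟨k + 3^j, by rw [pow_succ]; omega, ?_, ?_, ?_, ?_⟩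
        · rw [hcast, div_le_iff₀ (by positivity), Nat.cast_add, ← hN]
          rw [div_le_iff₀ hr] at e1
          linarith
        · rw [hcast, le_div_iff₀ (by positivity), Nat.cast_add, ← hN]
          rw [le_div_iff₀ hr] at e2
          linarith
        · rw [zeta, if_neg g1, if_pos g2, g3]
          linarith
        · rw [zeta, if_neg g1, if_pos g2, g3, hcast]
          have : 1 / (3 * N) = (1 / N) / 3 := by field_simp
          linarith
      · right
        simp only at e1 e2 ⊢
        refine ⟨k + 3^j, by omega, by rw [pow_succ]; omega, ?_, ?_⟩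
        · rw [hcast, e1, Nat.cast_add, ← hN]
          field_simp
        · rw [side_add_odd hodd, e2]
    · simp only [G2, mem_prod, mem_singleton_iff, mem_Icc] at h'
      right
      refine ⟨2 * 3^j, by omega, by rw [pow_succ]; omega, ?_, ?_⟩
      · simp only
        rw [hcast, h'.2.1, Nat.cast_mul, ← hN]
        field_simp
        norm_num
      · simp only
        have : ¬ Odd (2 * 3^j) := Nat.not_odd_iff_even.2 (even_two_mul _)
        rw [h'.1, side, if_neg this]
    · simp only [T2, Prod.mk.injEq] at he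
      obtain ⟨rfl, rfl, rfl⟩ := he
      rcases ih _ h' with ⟨k, hk, e1, e2, e3, e4⟩ | ⟨k, hk0, hk, e1, e2⟩
      · left
        simp only at e1 e2 e3 e4 ⊢
        have g1 : ¬ (k + 2 * 3^j < 3^j) := by omega
        have g2 : ¬ (k + 2 * 3^j < 2 * 3^j) := by omega
        have g3 : k + 2 * 3^j - 2 * 3^j = k := by omega
        refine ⟨k + 2 * 3^j, by rw [pow_succ]; omega, ?_, ?_, ?_, ?_⟩
        · rw [hcast, div_le_iff₀ (by positivity), Nat.cast_add, Nat.cast_mul, ← hN]
          rw [div_le_iff₀ hr] at e1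
          push_cast
          linarith
        · rw [hcast, le_div_iff₀ (by positivity), Nat.cast_add, Nat.cast_mul, ← hN]
          rw [le_div_iff₀ hr] at e2
          push_cast
          linarith
        · rw [zeta, if_neg g1, if_neg g2, g3]
          linarith
        · rw [zeta, if_neg g1, if_neg g2, g3, hcast]
          have : 1 / (3 * N) = (1 / N) / 3 := by field_simp
          linarith
      · right
        simp only at e1 e2 ⊢
        refine ⟨k + 2 * 3^j, by omega, by rw [pow_succ]; omega, ?_, ?_⟩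
        · rw [hcast, e1, Nat.cast_add, Nat.cast_mul, ← hN]
          push_cast
          field_simp
        · rw [side_add_even (even_two_mul _), e2]

/-- embedding of three-space in `ℝⁿ` -/
noncomputable def emb (n : ℕ) (y : ℝ × ℝ × ℝ) : EuclideanSpace ℝ (Fin n) :=
  WithLp.toLp 2 (fun i => if i.val = 0 then y.1 else if i.val = 1 then y.2.1 else
    if i.val = 2 then y.2.2 else 0)

theorem continuous_emb (n : ℕ) : Continuous (emb n) := by
  unfold emb
  refine (PiLp.continuous_toLp 2 _).comp ?_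
  refine continuous_pi fun i => ?_
  split_ifs <;> fun_prop

theorem lipschitz_coord {n : ℕ} (i : Fin n) :
    LipschitzWith 1 (fun y : EuclideanSpace ℝ (Fin n) => y i) := by
  apply LipschitzWith.of_dist_le_mul
  intro x y
  rw [NNReal.coe_one, one_mul, Real.dist_eq, dist_eq_norm]
  exact PiLp.norm_apply_le (x - y) i

/-- **Negative answer for every `n ≥ 3`.**  For every `n ≥ 3` there are a compact connected set
`K ⊂ ℝⁿ`, points `p, q ∈ K` and `ε > 0` such that every curve `γ` from `p` to `q` satisfies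
`length(γ \ K) ≥ ε`. -/
theorem result (n : ℕ) (hn : 3 ≤ n) :
    ∃ K : Set (EuclideanSpace ℝ (Fin n)), IsCompact K ∧ IsConnected K ∧
      ∃ p ∈ K, ∃ q ∈ K, ∃ ε : ℝ, 0 < ε ∧ ∀ γ : Path p q, ENNReal.ofReal ε ≤ lengthOutside K γ := by
  refine ⟨emb n '' K3, isCompact_K3.image (continuous_emb n),
    isConnected_K3.image _ (continuous_emb n).continuousOn, emb n (0,0,0),
    mem_image_of_mem _ (mem_iInter.2 p_mem_Kst), emb n (1,1,0),
    mem_image_of_mem _ (mem_iInter.2 q_mem_Kst), 1/4, by norm_num, ?_⟩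
  intro γ
  have n0 : 0 < n := by omega
  have n1 : 1 < n := by omega
  have n2 : 2 < n := by omega
  refine main_lower_bound (isCompact_K3.image (continuous_emb n)).isClosed
    (lipschitz_coord ⟨0, n0⟩) (lipschitz_coord ⟨1, n1⟩) (lipschitz_coord ⟨2, n2⟩) ?_ ?_ ?_ γ
  · intro M
    refine ⟨3^M, (Nat.lt_pow_self (by norm_num)).le, by positivity, zeta M, ?_, ?_⟩
    · intro k hk0 hk
      push_cast
      exact zeta_gap M k hk0 hk
    · rintro _ ⟨y, hy, rfl⟩
      have := Kst_level M y (mem_iInter.1 hy M)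
      simpa [emb] using this
  · simp [emb]
  · simp [emb]

end Pool.Agent.Results.MP_5069ae_gt.ExcursionCounterexample
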